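import Pool.Agent.W544.PG.Defs7
import Pool.Agent.W143.PG.Sep
import Pool.Agent.W883.PG.Xdi

/-!
# PG6-MHO (helper67)
-/

set_option autoImplicit false

open Matrix Finset Module

namespace Pool.Agent.W67.PG

open Pool.Agent.W544.PG

lemma formW_inr {w : ℕ} (s n : ℕ) {l : ℕ} (β : (Fin l → Fin w) → ℚ) (L : Fin l → Fin w) :
    formW s n β (fun i => Sum.inr (L i)) = β L := by
  unfold formW
  have h : ∃ L' : Fin l → Fin w, (fun i => (Sum.inr (L i) : Kx s n w)) =
      fun i => Sum.inr (L' i) := ⟨L, rfl⟩
  rw [dif_pos h]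
  congr 1
  funext i
  exact (Sum.inr_injective (congrFun h.choose_spec i)).symm

lemma formW_inl {w : ℕ} (s n : ℕ) {l : ℕ} (β : (Fin l → Fin w) → ℚ) (J : Fin l → Kx s n w)
    (i : Fin l) (a : Fin s ⊕ Fin n) (h : J i = Sum.inl a) : formW s n β J = 0 := by
  unfold formW
  rw [dif_neg]
  rintro ⟨L, hL⟩
  rw [hL] at h
  simp at h

lemma killW {w l : ℕ} (W : HW w) (β : (Fin l → Fin w) → ℚ) (h : W.IsHodge β) :
    act W.y (cx β) = 0 := by
  have key : Pool.Agent.W143.PG.aN W.y (fun J => (β J : ℂ)) = 0 := by
    rw [Pool.Agent.W143.PG.kil_iff]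
    set P : Fin 2 → Matrix (Fin w) (Fin w) ℂ := ![(1 / 2 : ℂ) • (1 : Matrix (Fin w) (Fin w) ℂ) + W.y,
      (1 / 2 : ℂ) • (1 : Matrix (Fin w) (Fin w) ℂ) - W.y] with hP
    set e : Fin 2 → ℤ := ![1, -1] with he
    have hyy : W.y * W.y = (1 / 4 : ℂ) • (1 : Matrix (Fin w) (Fin w) ℂ) := by
      rw [← W.sq, smul_smul]
      norm_num
    have hPe : ∀ r (u : Fin w → ℂ), (2 : ℂ) • (W.y *ᵥ (P r *ᵥ u)) = (e r : ℂ) • (P r *ᵥ u) := by
      intro r u
      have key : (2 : ℂ) • (W.y * P r) = (e r : ℂ) • P r := by
        fin_cases r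
        · simp only [hP, he, Fin.zero_eta, Matrix.cons_val_zero, Int.cast_one, one_smul]
          rw [mul_add, hyy, mul_smul_comm, mul_one]
          module
        · simp only [hP, he, Fin.mk_one, Matrix.cons_val_one, Matrix.cons_val_zero,
            Int.cast_neg, Int.cast_one, neg_smul, one_smul]
          rw [mul_sub, hyy, mul_smul_comm, mul_one]
          module
      rw [Matrix.mulVec_mulVec, ← Matrix.smul_mulVec, key, Matrix.smul_mulVec]
    have hsum : ∀ u : Fin w → ℂ, u = ∑ r, P r *ᵥ u := by
      intro u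
      rw [← Matrix.sum_mulVec]
      have : ∑ r, P r = 1 := by
        rw [Fin.sum_univ_two]
        simp only [hP, Matrix.cons_val_zero, Matrix.cons_val_one]
        module
      rw [this, Matrix.one_mulVec]
    refine MultilinearMap.ext fun v => ?_
    have h1 : v = fun j => ∑ r, P r *ᵥ v j := funext fun j => hsum (v j)
    rw [h1, MultilinearMap.map_sum, _root_.zero_apply]
    refine sum_eq_zero fun r _ => ?_
    have h2 : ∀ j, W.y *ᵥ ((fun j => P (r j) *ᵥ v j) j) =
        ((fun j => (e (r j) : ℂ) / 2) j) • (fun j => P (r j) *ᵥ v j) j := by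
      intro j
      have h3 := hPe (r j) (v j)
      have h4 : W.y *ᵥ (P (r j) *ᵥ v j) = (1 / 2 : ℂ) • ((2 : ℂ) • (W.y *ᵥ (P (r j) *ᵥ v j))) := by
        rw [smul_smul]; norm_num
      show W.y *ᵥ (P (r j) *ᵥ v j) = ((e (r j) : ℂ) / 2) • (P (r j) *ᵥ v j)
      rw [h4, h3, smul_smul]
      congr 1
      ring
    rw [Pool.Agent.W143.PG.Dr_eigen W.y _ (fun j => P (r j) *ᵥ v j) (fun j => (e (r j) : ℂ) / 2) h2]
    by_cases h3 : ∑ j, e (r j) = 0
    · have h4 : ∑ j, (e (r j) : ℂ) / 2 = 0 := by
        rw [← Finset.sum_div]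
        have : ∑ j, (e (r j) : ℂ) = ((∑ j, e (r j) : ℤ) : ℂ) := by push_cast; rfl
        rw [this, h3]; simp
      rw [h4, zero_mul]
    · have h5 := h (fun j => P (r j) *ᵥ v j) (fun j => e (r j)) (fun j => hPe (r j) (v j)) h3
      rw [Pool.Agent.W143.PG.EE_apply]
      unfold ev at h5
      rw [h5, mul_zero]
  exact key

theorem mho : S_mho := by
  intro n r w s T W c hQ hx
  classical
  refine ⟨?_, ?_, ?_⟩
  · intro a
    funext J
    unfold act cx form1
    rw [Fin.sum_univ_one, Finset.sum_eq_single (Sum.inl (Sum.inl a))]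
    · have h0 : ∀ q, xT T W s (Sum.inl (Sum.inl a)) q = 0 := by
        intro q
        rcases q with (q | q) | q <;> simp [xT, HS.xS]
      rw [h0, zero_mul]
      rfl
    · intro l _ hl
      simp [hl]
    · intro h
      exact absurd (Finset.mem_univ _) h
  · intro i
    -- skewness of `x`
    have hsk : ∀ p q, ∑ l, T.x l p * (T.Q l q : ℂ) + ∑ l, (T.Q p l : ℂ) * T.x l q = 0 := by
      intro p q
      have := congrFun (congrFun T.skew p) q
      simpa [Matrix.add_apply, Matrix.mul_apply, Matrix.transpose_apply, mC] using this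
    set Bi : Matrix ((Fin s ⊕ Fin n) ⊕ Fin w) ((Fin s ⊕ Fin n) ⊕ Fin w) ℚ :=
      fromBlocks (fromBlocks 0 0 0 (Matrix.of fun a b => if c a = i then T.Q a b else 0)) 0 0 0
      with hBi
    have hxi : ∀ (a b : Fin n),
        ∑ l, T.x l a * (((if c l = i then T.Q l b else 0 : ℚ)) : ℂ) +
          ∑ l, (((if c a = i then T.Q a l else 0 : ℚ)) : ℂ) * T.x l b = 0 := by
      intro a b
      by_cases h : c a = i
      · rw [← hsk a b]
        congr 1
        · apply Finset.sum_congr rfl
          intro l _
          by_cases hl : c l = i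
          · rw [if_pos hl]
          · have h0 : T.x l a = 0 := hx l a (by rw [h]; exact hl)
            rw [h0, zero_mul, zero_mul]
        · apply Finset.sum_congr rfl
          intro l _
          rw [if_pos h]
      · rw [Finset.sum_eq_zero, Finset.sum_eq_zero, add_zero]
        · intro l _
          rw [if_neg h, Rat.cast_zero, zero_mul]
        · intro l _
          by_cases hl : c l = i
          · have h0 : T.x l a = 0 := hx l a (by rw [hl]; exact fun e => h e.symm)
            rw [h0, zero_mul]
          · rw [if_neg hl, Rat.cast_zero, mul_zero]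
    have hBiX : ∀ p q, ∑ l, xT T W s l p * (Bi l q : ℂ) +
        ∑ l, (Bi p l : ℂ) * xT T W s l q = 0 := by
      intro p q
      simp only [Fintype.sum_sum_type]
      rcases p with (p | p) | p <;> rcases q with (q | q) | q <;>
        simp [xT, HS.xS, hBi]
      have := hxi p q
      simpa using this
    have hform : formQ T c s w i = fun J : Fin 2 → Kx s n w => Bi (J 0) (J 1) := by
      funext J
      unfold formQ
      obtain ⟨p, hp⟩ : ∃ p, p = J 0 := ⟨_, rfl⟩
      obtain ⟨q, hq⟩ : ∃ q, q = J 1 := ⟨_, rfl⟩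
      rw [← hp, ← hq]
      rcases p with (p | p) | p <;> rcases q with (q | q) | q <;> simp [hBi]
    rw [hform]
    funext J
    rw [Pool.Agent.W883.PG.act2]
    exact hBiX _ _
  · intro l β hβ
    have hk := killW W β hβ
    funext J
    by_cases hJ : ∃ i a, J i = Sum.inl a
    · obtain ⟨i, a, hia⟩ := hJ
      unfold act cx
      refine Finset.sum_eq_zero fun j _ => Finset.sum_eq_zero fun l' _ => ?_
      by_cases hji : j = i
      · subst hji
        rcases l' with b | b
        · rw [formW_inl s n β _ j b (by rw [Function.update_self]), Rat.cast_zero, mul_zero]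
        · rw [hia]
          simp [xT]
      · rw [formW_inl s n β _ i a (by rw [Function.update_of_ne (Ne.symm hji)]; exact hia),
          Rat.cast_zero, mul_zero]
    · push Not at hJ
      have hL : ∀ i, ∃ b, J i = Sum.inr b := by
        intro i
        rcases hh : J i with a | b
        · exact absurd hh (hJ i a)
        · exact ⟨b, rfl⟩
      choose L hL using hL
      have hJL : J = fun i => Sum.inr (L i) := funext hL
      have h1 := congrFun hk L
      unfold act cx at h1 ⊢
      rw [Pi.zero_apply] at h1 ⊢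
      rw [← h1]
      refine Finset.sum_congr rfl fun j _ => ?_
      rw [Fintype.sum_sum_type]
      have h2 : ∑ a : Fin s ⊕ Fin n, xT T W s (Sum.inl a) (J j) *
          ((formW s n β (Function.update J j (Sum.inl a)) : ℚ) : ℂ) = 0 := by
        refine Finset.sum_eq_zero fun a _ => ?_
        rw [formW_inl s n β _ j a (by rw [Function.update_self]), Rat.cast_zero, mul_zero]
      rw [h2, zero_add]
      refine Finset.sum_congr rfl fun b _ => ?_
      have h3 : Function.update J j (Sum.inr b) = fun i => Sum.inr (Function.update L j b i) := by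
        funext i
        by_cases hij : i = j
        · subst hij
          simp
        · rw [Function.update_of_ne hij, Function.update_of_ne hij, hL i]
      rw [h3, formW_inr, hL j]
      simp [xT]

end Pool.Agent.W67.PG
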